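import Pool.Agent.Q165.CPSep2

/-!
# MP_114da7_co: well-separated positions of a consecutive permutation pattern

`OccursAt π w i` (in `Q165.CP`): the pattern `π` of length `k` has a consecutive occurrence in the
permutation `w` of length `n` starting at the one-based index `i`, `1 ≤ i ≤ n - k + 1`.
`count π I n` is the number `p_π(I, n)` of permutations of length `n` whose set of starting indices
is exactly `I`.  `Separated g n I`: all elements of `I` are at most `n` and at least `g`, they are
at distance at least `g` from `n`, and distinct elements are at distance at least `g`.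

For every pattern of length at least three there is a constant `C = C_π > 0` such that
`p_π(I, n) = C ^ a p_π(n) (1 + O(n ^ (-α)))` for every `α`, uniformly over all `√n`-separated sets
`I` with `a` elements.  More generally the relative error is `O(θ ^ g)` for all `g`-separated sets.

Idea: let `U_1, U_2, ...` be independent and uniform on `[0,1]`.  The probability to avoid `π` from
a window of `k - 1` values on defines a positive transfer operator which contracts the oscillation
of quotients.  So the cost of inserting one more occurrence does not depend on the earlier ones,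
up to an exponentially small error, and reversing the words it does not depend on the position.
-/

namespace Pool.Agent.Results.MP_114da7_co.Separation

open Q165.CP

/-- For every pattern `π` of length `k ≥ 3` there are `C > 0` and `θ < 1` such that for every `a`
(1) `p_π(I, n) = C ^ a p_π(n) (1 + O(θ ^ g))` uniformly for all `g`-separated sets `I` with `a`
elements, `g` large, and (2) for every `α` there is `K` such that
`|p_π(I, n) - C ^ a p_π(n)| ≤ K n ^ (-α) C ^ a p_π(n)` for all `n ≥ 1` and all `√n`-separated
sets `I` with `a` elements. -/
theorem result (k : ℕ) (hk : 3 ≤ k) (π : Equiv.Perm (Fin k)) :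
    ∃ (C θ : ℝ) (g₀ : ℕ), 0 < C ∧ 0 < θ ∧ θ < 1 ∧ ∀ a : ℕ,
      (∃ K : ℝ, ∀ (g n : ℕ) (I : Finset ℕ), g₀ ≤ g → I.card = a → Separated g n I →
        |(count π I n : ℝ) - C ^ a * count π ∅ n| ≤ K * θ ^ g * (C ^ a * count π ∅ n)) ∧
      ∀ α : ℝ, ∃ K : ℝ, ∀ (n : ℕ) (I : Finset ℕ), 1 ≤ n → I.card = a →
        Separated (Real.sqrt n) n I →
        |(count π I n : ℝ) - C ^ a * count π ∅ n| ≤
          K * (n : ℝ) ^ (-α) * (C ^ a * count π ∅ n) :=
  sep_main hk π

end Pool.Agent.Results.MP_114da7_co.Separation
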